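import Pool.Agent.Y326.Rwm3

/-!
# Weak rational ergodicity and rational weak mixing when the Cartesian square is ergodic

If `T × T` is ergodic, then weak rational ergodicity and rational weak mixing are equivalent, with the
same set `F` and for all kinds of averages; in particular the answer to Q1 is positive.  The general
principle (part 4) characterises the ergodicity of a product action of a countable group: averages of
invariant measures converge to the product measure on the rectangles in `F × H` only if almost all of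
these measures are nearly proportional to the product measure there.
-/

set_option autoImplicit false
open MeasureTheory Filter Topology
open scoped ENNReal

namespace Pool.Agent.Results.MP_0c3574_an.ErgodicSquare

universe v w

section Definitions

variable {X : Type v} [MeasurableSpace X]

/-- The number `u_i(F) = μ(T^i F ∩ F) / μ(F)^2`. -/
noncomputable def u (μ : Measure X) (T : X ≃ᵐ X) (F : Set X) (i : ℕ) : ℝ :=
  μ.real ((⇑T)^[i] '' F ∩ F) / μ.real F ^ 2

/-- The number `a_n(F) = u_0(F) + ... + u_{n-1}(F)`. -/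
noncomputable def a (μ : Measure X) (T : X ≃ᵐ X) (F : Set X) (n : ℕ) : ℝ :=
  ∑ i ∈ Finset.range n, u μ T F i

/-- The defining property of weak rational ergodicity for the set `F`. -/
def WREOn (μ : Measure X) (T : X ≃ᵐ X) (F : Set X) : Prop :=
  ∀ A B : Set X, MeasurableSet A → MeasurableSet B → A ⊆ F → B ⊆ F →
    Tendsto (fun n : ℕ => 1 / a μ T F n * ∑ i ∈ Finset.range n, μ.real ((⇑T)^[i] '' A ∩ B))
      atTop (𝓝 (μ.real A * μ.real B))

/-- The defining property of rational weak mixing for the set `F`. -/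
def RWMOn (μ : Measure X) (T : X ≃ᵐ X) (F : Set X) : Prop :=
  ∀ A B : Set X, MeasurableSet A → MeasurableSet B → A ⊆ F → B ⊆ F →
    Tendsto (fun n : ℕ => 1 / a μ T F n * ∑ i ∈ Finset.range n,
      |μ.real ((⇑T)^[i] '' A ∩ B) - μ.real A * μ.real B * u μ T F i|) atTop (𝓝 0)

/-- Weak rational ergodicity. -/
def WeaklyRationallyErgodic (μ : Measure X) (T : X ≃ᵐ X) : Prop :=
  ∃ F : Set X, MeasurableSet F ∧ 0 < μ F ∧ μ F < ∞ ∧ WREOn μ T F

/-- Rational weak mixing. -/
def RationallyWeaklyMixing (μ : Measure X) (T : X ≃ᵐ X) : Prop :=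
  ∃ F : Set X, MeasurableSet F ∧ 0 < μ F ∧ μ F < ∞ ∧ RWMOn μ T F

/-- The integer power `T^k` as a map. -/
def zp (T : X ≃ᵐ X) (k : ℤ) : X → X := ⇑((T.toEquiv : Equiv.Perm X) ^ k)

/-- Power weak mixing: all products of nonzero integer powers are ergodic. -/
def PowerWeaklyMixing (μ : Measure X) (T : X ≃ᵐ X) : Prop :=
  ∀ r : ℕ, 1 ≤ r → ∀ k : Fin r → ℤ, (∀ j, k j ≠ 0) →
    Ergodic (fun (x : Fin r → X) (j : Fin r) => zp T (k j) (x j)) (Measure.pi fun _ => μ)

variable {Y : Type w} [MeasurableSpace Y]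

/-- The product action of `Γ` on `X × Y` is ergodic for the product measure. -/
def ErgodicProduct (Γ : Type) [Group Γ] [MulAction Γ X] [MulAction Γ Y] (μ : Measure X)
    (ν : Measure Y) : Prop :=
  ∀ S : Set (X × Y), MeasurableSet S → (∀ g : Γ, (fun p : X × Y => g • p) ⁻¹' S = S) →
    (μ.prod ν) S = 0 ∨ (μ.prod ν) Sᶜ = 0

/-- If averages (over `t`, with respect to the measures `W n`) of `Γ`-invariant measures `m t` on
`X × Y` converge on the rectangles in `F × H` to the product measure, then the mean deviation of the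
`m t` from the multiples of the product measure with the same value at `F × H` tends to zero. -/
def Rigid (Γ : Type) [Group Γ] [MulAction Γ X] [MulAction Γ Y] (μ : Measure X)
    (ν : Measure Y) : Prop :=
  ∀ (F : Set X) (H : Set Y), MeasurableSet F → MeasurableSet H → 0 < μ F → 0 < ν H →
    μ F < ∞ → ν H < ∞ →
    ∀ (ι κ : Type) [MeasurableSpace ι] (m : ι → Measure (X × Y)) (l : Filter κ)
      (W : κ → Measure ι), (∀ t, m t (F ×ˢ H) < ∞) →
      (∀ (t : ι) (g : Γ), MeasurePreserving (fun p : X × Y => g • p) (m t) (m t)) →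
      (∀ (n : κ) (A : Set X) (B : Set Y), MeasurableSet A → MeasurableSet B → A ⊆ F → B ⊆ H →
        Integrable (fun t => (m t).real (A ×ˢ B)) (W n)) →
      (∀ (A : Set X) (B : Set Y), MeasurableSet A → MeasurableSet B → A ⊆ F → B ⊆ H →
        Tendsto (fun n : κ => ∫ t, (m t).real (A ×ˢ B) ∂(W n)) l (𝓝 (μ.real A * ν.real B))) →
      ∀ (A : Set X) (B : Set Y), MeasurableSet A → MeasurableSet B → A ⊆ F → B ⊆ H →
        Tendsto (fun n : κ => ∫ t, |(m t).real (A ×ˢ B) -
          μ.real A * ν.real B / (μ.real F * ν.real H) * (m t).real (F ×ˢ H)| ∂(W n)) l (𝓝 0)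

end Definitions

open Pool.Agent.Y326.Rwm

lemma a_nonneg {X : Type v} [MeasurableSpace X] (μ : Measure X) (T : X ≃ᵐ X) (F : Set X) (n : ℕ) :
    0 ≤ a μ T F n :=
  Finset.sum_nonneg fun i _ => by unfold u; positivity

lemma wre_rwm {X : Type v} [MeasurableSpace X] (μ : Measure X) [SigmaFinite μ] (T : X ≃ᵐ X)
    (hT : MeasurePreserving T μ μ) (hR : Ergodic (Prod.map T T) (μ.prod μ)) {F : Set X}
    (hF : MeasurableSet F) (hF0 : 0 < μ F) (hFf : μ F < ∞) (hW : WREOn μ T F) : RWMOn μ T F := by
  intro A B hA hB hAF hBF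
  have hc : ∀ n, 0 ≤ 1 / a μ T F n := fun n => one_div_nonneg.2 (a_nonneg μ T F n)
  have hz : ∀ i : ℕ, Pool.Agent.Y326.Rwm.zp T (i : ℤ) = (⇑T)^[i] := fun i => zp_nat T i
  have hmain := one T (κ := ℕ) hT hR hF hF0 hFf atTop
    (fun n => ∑ i ∈ Finset.range n, ENNReal.ofReal (1 / a μ T F n) • Measure.dirac (i : ℤ))
    (fun n => integrable_finsetSum_measure.2 fun i _ =>
      (integrable_dirac (by simp)).smul_measure ENNReal.ofReal_ne_top)
    (fun A B hA hB hAF hBF => by
      refine (hW A B hA hB hAF hBF).congr fun n => ?_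
      rw [avg_eq _ (hc n)]
      simp only [hz]) hA hB hAF hBF
  refine hmain.congr fun n => ?_
  rw [avg_eq _ (hc n)]
  simp only [hz]
  rfl

lemma rwm_wre {X : Type v} [MeasurableSpace X] (μ : Measure X) (T : X ≃ᵐ X) {F : Set X}
    (hF0 : 0 < μ F) (hFf : μ F < ∞) (hW : RWMOn μ T F) : WREOn μ T F := by
  intro A B hA hB hAF hBF
  have hFr : 0 < μ.real F := ENNReal.toReal_pos hF0.ne' hFf.ne
  have hpos : ∀ n, 1 ≤ n → 0 < a μ T F n := by
    intro n hn
    refine lt_of_lt_of_le ?_ (Finset.single_le_sum (f := fun i => u μ T F i)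
      (fun i _ => by unfold u; positivity) (Finset.mem_range.2 hn))
    unfold u
    simp only [Function.iterate_zero, Set.image_id, Set.inter_self]
    positivity
  have h := hW A B hA hB hAF hBF
  rw [tendsto_iff_norm_sub_tendsto_zero]
  refine squeeze_zero' (Eventually.of_forall fun n => norm_nonneg _) ?_ h
  filter_upwards [eventually_ge_atTop 1] with n hn
  have hn0 := hpos n hn
  have e : 1 / a μ T F n * ∑ i ∈ Finset.range n, μ.real ((⇑T)^[i] '' A ∩ B) -
      μ.real A * μ.real B = 1 / a μ T F n * ∑ i ∈ Finset.range n,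
        (μ.real ((⇑T)^[i] '' A ∩ B) - μ.real A * μ.real B * u μ T F i) := by
    rw [Finset.sum_sub_distrib, ← Finset.mul_sum]
    change _ = 1 / a μ T F n * (_ - μ.real A * μ.real B * a μ T F n)
    field_simp
  rw [e, norm_mul, Real.norm_of_nonneg (one_div_nonneg.2 hn0.le), Real.norm_eq_abs]
  gcongr
  exact Finset.abs_sum_le_sum_abs _ _

/-- (1) Full answer to Q1: weakly rationally ergodic and power weakly mixing transformations are
rationally weakly mixing.  (2) If `T × T` is ergodic, then for each `F` the two defining properties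
are equivalent; hence so are weak rational ergodicity and rational weak mixing.  (3) The same for
arbitrary averages over the integers.  (4) The ergodicity of a product action of a countable group is
equivalent to the rigidity of averages of invariant measures.  (5) Equivariant maps. -/
theorem result :
    (∀ (X : Type v) [MeasurableSpace X] [StandardBorelSpace X] (μ : Measure X) [SigmaFinite μ],
      μ Set.univ = ∞ → ∀ T : X ≃ᵐ X, MeasurePreserving T μ μ → Conservative T μ → Ergodic T μ →
      WeaklyRationallyErgodic μ T → PowerWeaklyMixing μ T → RationallyWeaklyMixing μ T) ∧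
    (∀ (X : Type v) [MeasurableSpace X] (μ : Measure X) [SigmaFinite μ] (T : X ≃ᵐ X),
      MeasurePreserving T μ μ → Ergodic (Prod.map T T) (μ.prod μ) →
      (∀ F : Set X, MeasurableSet F → 0 < μ F → μ F < ∞ → (WREOn μ T F ↔ RWMOn μ T F)) ∧
      (WeaklyRationallyErgodic μ T ↔ RationallyWeaklyMixing μ T)) ∧
    (∀ (X : Type v) [MeasurableSpace X] (μ : Measure X) [SigmaFinite μ] (T : X ≃ᵐ X),
      MeasurePreserving T μ μ → Ergodic (Prod.map T T) (μ.prod μ) →
      ∀ F : Set X, MeasurableSet F → 0 < μ F → μ F < ∞ →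
      ∀ (κ : Type) (l : Filter κ) (W : κ → Measure ℤ),
      (∀ n : κ, Integrable (fun i : ℤ => μ.real (zp T i '' F ∩ F)) (W n)) →
      (∀ A B : Set X, MeasurableSet A → MeasurableSet B → A ⊆ F → B ⊆ F →
        Tendsto (fun n : κ => ∫ i, μ.real (zp T i '' A ∩ B) ∂(W n)) l
          (𝓝 (μ.real A * μ.real B))) →
      ∀ A B : Set X, MeasurableSet A → MeasurableSet B → A ⊆ F → B ⊆ F →
        Tendsto (fun n : κ => ∫ i, |μ.real (zp T i '' A ∩ B) -
          μ.real A * μ.real B * (μ.real (zp T i '' F ∩ F) / μ.real F ^ 2)| ∂(W n)) l (𝓝 0)) ∧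
    (∀ (X : Type v) (Y : Type w) [MeasurableSpace X] [MeasurableSpace Y] (Γ : Type) [Group Γ]
      [Countable Γ] [MulAction Γ X] [MulAction Γ Y] (μ : Measure X) (ν : Measure Y)
      [SigmaFinite μ] [SigmaFinite ν],
      (∀ g : Γ, MeasurePreserving (fun x : X => g • x) μ μ) →
      (∀ g : Γ, MeasurePreserving (fun y : Y => g • y) ν ν) →
      (ErgodicProduct Γ μ ν ↔ Rigid Γ μ ν)) ∧
    (∀ (X : Type v) (Y : Type w) [MeasurableSpace X] [MeasurableSpace Y] (Γ : Type) [Group Γ]
      [Countable Γ] [MulAction Γ X] [MulAction Γ Y] (μ : Measure X) (ν : Measure Y)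
      [SigmaFinite μ] [SigmaFinite ν],
      (∀ g : Γ, MeasurePreserving (fun x : X => g • x) μ μ) →
      (∀ g : Γ, MeasurePreserving (fun y : Y => g • y) ν ν) → ErgodicProduct Γ μ ν →
      ∀ (F : Set X) (H : Set Y), MeasurableSet F → MeasurableSet H → 0 < μ F → 0 < ν H →
      μ F < ∞ → ν H < ∞ →
      ∀ (ι κ : Type) [MeasurableSpace ι] (S : ι → X → Y) (l : Filter κ) (W : κ → Measure ι),
      (∀ t, Measurable (S t)) → (∀ (t : ι) (g : Γ) (x : X), S t (g • x) = g • S t x) →
      (∀ (n : κ) (A : Set X) (B : Set Y), MeasurableSet A → MeasurableSet B → A ⊆ F → B ⊆ H →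
        Integrable (fun t => μ.real (A ∩ S t ⁻¹' B)) (W n)) →
      (∀ (A : Set X) (B : Set Y), MeasurableSet A → MeasurableSet B → A ⊆ F → B ⊆ H →
        Tendsto (fun n : κ => ∫ t, μ.real (A ∩ S t ⁻¹' B) ∂(W n)) l (𝓝 (μ.real A * ν.real B))) →
      ∀ (A : Set X) (B : Set Y), MeasurableSet A → MeasurableSet B → A ⊆ F → B ⊆ H →
        Tendsto (fun n : κ => ∫ t, |μ.real (A ∩ S t ⁻¹' B) -
          μ.real A * ν.real B / (μ.real F * ν.real H) * μ.real (F ∩ S t ⁻¹' H)| ∂(W n))
          l (𝓝 0)) := by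
  refine ⟨?_, ?_, ?_, ?_, ?_⟩
  · intro X _ _ μ _ _ T hT _ _ hWRE hPWM
    obtain ⟨F, hF, hF0, hFf, hW⟩ := hWRE
    exact ⟨F, hF, hF0, hFf, wre_rwm μ T hT (sq_of_pwm T hPWM) hF hF0 hFf hW⟩
  · intro X _ μ _ T hT hR
    refine ⟨fun F hF hF0 hFf => ⟨fun h => wre_rwm μ T hT hR hF hF0 hFf h,
      fun h => rwm_wre μ T hF0 hFf h⟩, ?_, ?_⟩
    · rintro ⟨F, hF, hF0, hFf, h⟩
      exact ⟨F, hF, hF0, hFf, wre_rwm μ T hT hR hF hF0 hFf h⟩
    · rintro ⟨F, hF, hF0, hFf, h⟩
      exact ⟨F, hF, hF0, hFf, rwm_wre μ T hF0 hFf h⟩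
  · intro X _ μ _ T hT hR F hF hF0 hFf κ l W hint hW A B hA hB hAF hBF
    exact one T hT hR hF hF0 hFf l W hint hW hA hB hAF hBF
  · intro X Y _ _ Γ _ _ _ _ μ ν _ _ hX hY
    constructor
    · intro herg F H hF hH hF0 hH0 hFf hHf ι κ _ m l W hl hm hint hW A B hA hB hAF hBH
      exact main Γ μ ν m hX hY herg hF hH hF0 hH0 hFf hHf hl hm l W hint hW hA hB hAF hBH
    · intro hR
      refine converse Γ μ ν hX hY ?_
      intro F H hF hH hF0 hH0 hFf hHf lam hl hlam hmean A B hA hB hAF hBH
      have key : ∀ f : Bool → ℝ, ∫ t, f t ∂((2 : ℝ≥0∞)⁻¹ • (Measure.dirac true +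
          Measure.dirac false) : Measure Bool) = (f true + f false) / 2 := by
        intro f
        rw [integral_smul_measure, integral_add_measure (integrable_dirac (by simp))
          (integrable_dirac (by simp)), integral_dirac, integral_dirac, ENNReal.toReal_inv,
          smul_eq_mul]
        simp only [ENNReal.toReal_ofNat]
        ring
      have h1 := hR F H hF hH hF0 hH0 hFf hHf Bool Unit lam ⊤
        (fun _ => (2 : ℝ≥0∞)⁻¹ • (Measure.dirac true + Measure.dirac false)) hl hlam
        (fun _ A B _ _ _ _ => by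
          refine Integrable.smul_measure ?_ (by simp)
          exact (integrable_dirac (by simp)).add_measure (integrable_dirac (by simp)))
        (fun A B hA hB hAF hBH => by
          simp only [key]
          rw [hmean A B hA hB hAF hBH]
          exact tendsto_const_nhds) A B hA hB hAF hBH
      simp only [key] at h1
      have h2 := tendsto_nhds_unique h1 tendsto_const_nhds
      have h3 := abs_nonneg ((lam true).real (A ×ˢ B) -
        μ.real A * ν.real B / (μ.real F * ν.real H) * (lam true).real (F ×ˢ H))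
      have h4 := abs_nonneg ((lam false).real (A ×ˢ B) -
        μ.real A * ν.real B / (μ.real F * ν.real H) * (lam false).real (F ×ˢ H))
      have h5 : |(lam true).real (A ×ˢ B) -
        μ.real A * ν.real B / (μ.real F * ν.real H) * (lam true).real (F ×ˢ H)| = 0 := by
        linarith
      exact sub_eq_zero.1 (abs_eq_zero.1 h5)
  · intro X Y _ _ Γ _ _ _ _ μ ν _ _ hX hY herg F H hF hH hF0 hH0 hFf hHf ι κ _ S l W hS heq hint hW
      A B hA hB hAF hBH
    exact graph Γ μ ν S hS heq hX hY herg hF hH hF0 hH0 hFf hHf l W hint hW hA hB hAF hBH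

end Pool.Agent.Results.MP_0c3574_an.ErgodicSquare
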